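import Pool.Agent.Helper12.NK.St

/-!
# NK MODULE STC: the combinatorial contradiction
-/

set_option autoImplicit false

namespace Pool.Agent.Helper9.NK

open Pool.Agent.Helper51.AJ (IsMinor Planar Apex ExMinor Con Tch)
open Pool.Agent.Helper12.NK

variable {V : Type}

theorem cof_symm {G : SimpleGraph V} {U : Set V} {a b : V} (h : Cof G U a b) : Cof G U b a := by
  obtain ⟨F, hF, ha, hb⟩ := h
  exact ⟨F, hF, hb, ha⟩

theorem three_of_ncard [Finite V] {X : Set V} (h : 3 ≤ X.ncard) :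
    ∃ a b c, a ∈ X ∧ b ∈ X ∧ c ∈ X ∧ a ≠ b ∧ a ≠ c ∧ b ≠ c :=
  (Set.two_lt_ncard_iff (Set.toFinite X)).mp (by omega)

theorem fin3_of_ncard [Finite V] {X : Set V} (h : 3 ≤ X.ncard) :
    ∃ t : Fin 3 → V, Function.Injective t ∧ ∀ i, t i ∈ X := by
  obtain ⟨a, b, c, ha, hb, hc, hab, hac, hbc⟩ := three_of_ncard h
  refine ⟨![a, b, c], ?_, ?_⟩
  · intro i j hij
    fin_cases i <;> fin_cases j <;> simp_all
  · intro i
    fin_cases i <;> simp_all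

theorem pair_le (a b : V) : ({a, b} : Set V).ncard ≤ 2 := by
  have := Set.ncard_insert_le a ({b} : Set V)
  rw [Set.ncard_singleton] at this
  exact this

/-- the facts on faces in a convenient form -/
structure Fp (G : SimpleGraph V) (U : Set V) : Prop where
  a1 : ∀ F F', IsFace G U F → IsFace G U F' → F ≠ F' → ∀ X : Set V, X ⊆ F → X ⊆ F' → 3 ≤ X.ncard →
    False
  b1 : ∀ (F X : Set V) (w : V), IsFace G U F → X ⊆ F → 3 ≤ X.ncard → w ∈ U → w ∉ F →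
    (∀ t ∈ X, Cof G U t w) → False
  b2 : ∀ (F : Set V) (p q w : V), IsFace G U F → p ∈ F → q ∈ F → p ≠ q → ¬ G.Adj p q → w ∈ U →
    w ∉ F → Cof G U p w → Cof G U q w → False
  b3 : ∀ (F F' : Set V) (p q w : V), IsFace G U F → IsFace G U F' → F ≠ F' → p ∈ F → q ∈ F →
    p ∈ F' → q ∈ F' → p ≠ q → G.Adj p q → w ∈ U → w ∉ F → w ∉ F' → Cof G U p w → Cof G U q w →
    False
  c1 : ∀ X Y : Set V, 3 ≤ X.ncard → 3 ≤ Y.ncard → Disjoint X Y →
    (∀ s ∈ X, ∀ t ∈ Y, Cof G U s t) →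
    (∀ F, IsFace G U F → ∀ p ∈ Y, ∀ q ∈ Y, p ≠ q → p ∈ F → q ∈ F → False) → False
  e1 : ∀ a b, a ∈ U → b ∈ U → G.Adj a b →
    ∃ F F' : Set V, IsFace G U F ∧ IsFace G U F' ∧ F ≠ F' ∧ a ∈ F ∧ b ∈ F ∧ a ∈ F' ∧ b ∈ F'

theorem fp_of [Finite V] (hKCA : StKCA) (hFPA : StFPA) (hFPB : StFPB) (hFPC : StFPC)
    (hEDF : StEDF) {G : SimpleGraph V} {U : Set V} (h4 : Kc 4 G U) (hP : Planar (rst G U)) :
    Fp G U := by
  have h3 : Kc 3 G U := (hKCA V G U).1 3 h4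
  obtain ⟨A1, _, _⟩ := hFPA V G U h3 hP
  obtain ⟨B1, B2, B3⟩ := hFPB V G U h4 hP
  refine ⟨?_, ?_, B2, B3, ?_, ?_⟩
  · intro F F' hF hF' hne X hX hX' hc
    obtain ⟨a, b, c, ha, hb, hc, hab, hac, hbc⟩ := three_of_ncard hc
    exact A1 F F' hF hF' hne a b c (hX ha) (hX hb) (hX hc) (hX' ha) (hX' hb) (hX' hc) hab hbc hac
  · intro F X w hF hX hc hwU hwF hcof
    obtain ⟨t, hti, htX⟩ := fin3_of_ncard hc
    exact B1 F t w hF hti (fun i => hX (htX i)) hwU hwF (fun i => hcof _ (htX i))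
  · intro X Y hX hY hd hcof hno
    obtain ⟨s, hsi, hsX⟩ := fin3_of_ncard hX
    obtain ⟨t, hti, htY⟩ := fin3_of_ncard hY
    refine hFPC V G U h3 hP s t hsi hti ?_ (fun i j => hcof _ (hsX i) _ (htY j)) ?_
    · intro i j hij
      exact Set.disjoint_left.mp hd (hsX i) (hij ▸ htY j)
    · intro F i j hF hij hi hj
      exact hno F hF _ (htY i) _ (htY j) (fun h => hij (hti h)) hi hj
  · intro a b ha hb hab
    exact hEDF V G U a b h3 hP ha hb hab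

/-- the situation, symmetric in `S` and `T` -/
structure Sit (G : SimpleGraph V) (U S T : Set V) : Prop where
  sU : S ⊆ U
  tU : T ⊆ U
  sF : ∀ F, IsFace G U F → ¬ S ⊆ F
  tF : ∀ F, IsFace G U F → ¬ T ⊆ F
  st : ∀ w ∈ S, (∃ F, IsFace G U F ∧ T \ {w} ⊆ F) ∨ ∀ t ∈ T, t ≠ w → Cof G U w t
  ts : ∀ t ∈ T, (∃ F, IsFace G U F ∧ S \ {t} ⊆ F) ∨ ∀ w ∈ S, w ≠ t → Cof G U t w

theorem Sit.symm {G : SimpleGraph V} {U S T : Set V} (h : Sit G U S T) : Sit G U T S :=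
  ⟨h.tU, h.sU, h.tF, h.sF, h.ts, h.st⟩

/-- CASE A with `T` independent -/
theorem caseA [Finite V] {G : SimpleGraph V} {U S T : Set V} (hp : Fp G U) (h : Sit G U S T)
    (hS : 4 ≤ S.ncard) (hT : 4 ≤ T.ncard) (hd : Disjoint S T)
    (hi : ∀ a ∈ T, ∀ b ∈ T, ¬ G.Adj a b) : False := by
  have hall : ∀ w ∈ S, ∀ t ∈ T, Cof G U w t := by
    intro w hw t ht
    have hwT : w ∉ T := Set.disjoint_left.mp hd hw
    rcases h.st w hw with ⟨F, hF, hTF⟩ | h1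
    · exfalso
      refine h.tF F hF ?_
      intro x hx
      exact hTF ⟨hx, fun hxw => hwT (by rw [← Set.mem_singleton_iff.mp hxw]; exact hx)⟩
    · exact h1 t ht (fun hh => hwT (hh ▸ ht))
  refine hp.c1 S T (by omega) (by omega) hd hall ?_
  intro F hF p hpT q hqT hpq hpF hqF
  refine h.sF F hF ?_
  intro w hw
  by_contra hwF
  exact hp.b2 F p q w hF hpF hqF hpq (hi p hpT q hqT) (h.sU hw) hwF
    (cof_symm (hall w hw p hpT)) (cof_symm (hall w hw q hqT))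

/-- the good elements of `S` -/
def gd (G : SimpleGraph V) (U S T : Set V) : Set V := {w | w ∈ S ∧ ∀ t ∈ T, t ≠ w → Cof G U w t}

theorem gd_sub {G : SimpleGraph V} {U S T : Set V} : gd G U S T ⊆ S := fun _ h => h.1

/-- (B1) -/
theorem b1 [Finite V] {G : SimpleGraph V} {U S T : Set V} (hp : Fp G U) (h : Sit G U S T)
    (hS : 5 ≤ S.ncard) (hT : 5 ≤ T.ncard) : 4 ≤ (gd G U S T).ncard := by
  by_contra hlt
  have h1 : 1 < (S \ gd G U S T).ncard := by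
    have := Set.ncard_sdiff_add_ncard_of_subset (gd_sub (G := G) (U := U) (S := S) (T := T))
      (Set.toFinite S)
    omega
  obtain ⟨w, w', hw, hw', hne⟩ := (Set.one_lt_ncard_iff (Set.toFinite _)).mp h1
  have hface : ∀ v ∈ S \ gd G U S T, ∃ F, IsFace G U F ∧ T \ {v} ⊆ F := by
    intro v hv
    rcases h.st v hv.1 with h2 | h2
    · exact h2
    · exact absurd ⟨hv.1, h2⟩ hv.2
  obtain ⟨F, hF, hTF⟩ := hface w hw
  obtain ⟨F', hF', hTF'⟩ := hface w' hw'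
  by_cases hFF : F = F'
  · subst hFF
    refine h.tF F hF ?_
    intro t ht
    by_cases htw : t = w
    · refine hTF' ⟨ht, fun hh => hne ?_⟩
      rw [← htw, Set.mem_singleton_iff.mp hh]
    · exact hTF ⟨ht, htw⟩
  · refine hp.a1 F F' hF hF' hFF (T \ {w, w'}) ?_ ?_ ?_
    · intro x hx
      exact hTF ⟨hx.1, fun hh => hx.2 (Or.inl hh)⟩
    · intro x hx
      exact hTF' ⟨hx.1, fun hh => hx.2 (Or.inr hh)⟩
    · have h2 := Set.le_ncard_sdiff ({w, w'} : Set V) T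
      have h3 : ({w, w'} : Set V).ncard ≤ 2 := pair_le w w'
      omega

/-- (B2) -/
theorem b2 [Finite V] {G : SimpleGraph V} {U S T : Set V} (hp : Fp G U) (h : Sit G U S T)
    (hS : 5 ≤ S.ncard) (hT : 5 ≤ T.ncard) (F : Set V) (hF : IsFace G U F) :
    (F ∩ T).ncard ≤ 2 := by
  by_contra hlt
  have h4 := b1 hp h hS hT
  have hsub : gd G U S T ⊆ F := by
    intro w hw
    by_contra hwF
    refine hp.b1 F (F ∩ T) w hF Set.inter_subset_left (by omega) (h.sU hw.1) hwF ?_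
    intro t ht
    exact cof_symm (hw.2 t ht.2 (fun hh => hwF (hh ▸ ht.1)))
  obtain ⟨t₀, ht₀, ht₀F⟩ := Set.not_subset.mp (h.tF F hF)
  refine hp.b1 F (gd G U S T) t₀ hF hsub (by omega) (h.tU ht₀) ht₀F ?_
  intro w hw
  exact hw.2 t₀ ht₀ (fun hh => ht₀F (hh ▸ hsub hw))

/-- (B3) -/
theorem b3 [Finite V] {G : SimpleGraph V} {U S T : Set V} (hp : Fp G U) (h : Sit G U S T)
    (hS : 5 ≤ S.ncard) (hT : 5 ≤ T.ncard) (F : Set V) (hF : IsFace G U F) (p q : V) (hpT : p ∈ T)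
    (hqT : q ∈ T) (hpq : p ≠ q) (hpF : p ∈ F) (hqF : q ∈ F) : G.Adj p q := by
  by_contra hadj
  have h4 := b1 hp h hS hT
  have h2 := b2 hp h.symm hT hS F hF
  have hsub : gd G U S T ⊆ F ∩ S := by
    intro w hw
    refine ⟨?_, hw.1⟩
    by_contra hwF
    exact hp.b2 F p q w hF hpF hqF hpq hadj (h.sU hw.1) hwF
      (cof_symm (hw.2 p hpT (fun hh => hwF (hh ▸ hpF))))
      (cof_symm (hw.2 q hqT (fun hh => hwF (hh ▸ hqF))))
  have := Set.ncard_le_ncard hsub (Set.toFinite _)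
  omega

/-- (B4) -/
theorem b4 [Finite V] {G : SimpleGraph V} {U S T : Set V} (hp : Fp G U) (h : Sit G U S T)
    (hS : 5 ≤ S.ncard) (hT : 5 ≤ T.ncard) :
    ∃ t ∈ T, ∃ t' ∈ T, t ≠ t' ∧ Cof G U t t' := by
  by_contra hno
  push Not at hno
  have h4 := b1 hp h hS hT
  have hdis : Disjoint (gd G U S T) T := by
    rw [Set.disjoint_left]
    intro w hw hwT
    obtain ⟨t, ht, htw⟩ := Set.exists_ne_of_one_lt_ncard (s := T) (by omega) w
    exact hno w hwT t ht htw.symm (hw.2 t ht htw)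
  refine hp.c1 (gd G U S T) T (by omega) (by omega) hdis ?_ ?_
  · intro s hs t ht
    exact hs.2 t ht (fun hh => Set.disjoint_left.mp hdis hs (hh ▸ ht))
  · intro F hF p hpT q hqT hpq hpF hqF
    exact hno p hpT q hqT hpq ⟨F, hF, hpF, hqF⟩

/-- CASE B -/
theorem caseB [Finite V] {G : SimpleGraph V} {U S T : Set V} (hp : Fp G U) (h : Sit G U S T)
    (hS : 5 ≤ S.ncard) (hT : 5 ≤ T.ncard) : False := by
  obtain ⟨t, ht, t', ht', htt, F₀, hF₀, htF₀, htF₀'⟩ := b4 hp h hS hT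
  have hadj : G.Adj t t' := b3 hp h hS hT F₀ hF₀ t t' ht ht' htt htF₀ htF₀'
  obtain ⟨F, F', hF, hF', hFF, htF, ht'F, htF', ht'F'⟩ := hp.e1 t t' (h.tU ht) (h.tU ht') hadj
  have h4 := b1 hp h hS hT
  -- `S'` lies in the two faces
  have hcov : gd G U S T ⊆ (F ∩ S) ∪ (F' ∩ S) := by
    intro w hw
    by_cases hwF : w ∈ F
    · exact Or.inl ⟨hwF, hw.1⟩
    · by_cases hwF' : w ∈ F'
      · exact Or.inr ⟨hwF', hw.1⟩
      · exfalso
        exact hp.b3 F F' t t' w hF hF' hFF htF ht'F htF' ht'F' htt hadj (h.sU hw.1) hwF hwF'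
          (cof_symm (hw.2 t ht (fun hh => hwF (hh ▸ htF))))
          (cof_symm (hw.2 t' ht' (fun hh => hwF (hh ▸ ht'F))))
  have c1 : (F ∩ S).ncard ≤ 2 := b2 hp h.symm hT hS F hF
  have c2 : (F' ∩ S).ncard ≤ 2 := b2 hp h.symm hT hS F' hF'
  have c3 : (gd G U S T).ncard ≤ ((F ∩ S) ∪ (F' ∩ S)).ncard :=
    Set.ncard_le_ncard hcov (Set.toFinite _)
  have c4 : ((F ∩ S) ∪ (F' ∩ S)).ncard + ((F ∩ S) ∩ (F' ∩ S)).ncard =
      (F ∩ S).ncard + (F' ∩ S).ncard :=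
    Set.ncard_union_add_ncard_inter (F ∩ S) (F' ∩ S) (Set.toFinite _) (Set.toFinite _)
  have c5 : ((F ∩ S) ∩ (F' ∩ S)).ncard = 0 := by omega
  have c6 : (F ∩ S) ∩ (F' ∩ S) = ∅ := (Set.ncard_eq_zero (Set.toFinite _)).mp c5
  have htS : t ∉ S := fun hh => by
    have : t ∈ (F ∩ S) ∩ (F' ∩ S) := ⟨⟨htF, hh⟩, ⟨htF', hh⟩⟩
    rw [c6] at this
    exact this
  have ht'S : t' ∉ S := fun hh => by
    have : t' ∈ (F ∩ S) ∩ (F' ∩ S) := ⟨⟨ht'F, hh⟩, ⟨ht'F', hh⟩⟩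
    rw [c6] at this
    exact this
  have c7 : gd G U S T = (F ∩ S) ∪ (F' ∩ S) :=
    Set.eq_of_subset_of_ncard_le hcov (by omega) (Set.toFinite _)
  have c8 : 1 < (F ∩ S).ncard := by omega
  obtain ⟨w₁, w₂, hw₁, hw₂, hww⟩ := (Set.one_lt_ncard_iff (Set.toFinite _)).mp c8
  have hg₁ : w₁ ∈ gd G U S T := by rw [c7]; exact Or.inl hw₁
  have hg₂ : w₂ ∈ gd G U S T := by rw [c7]; exact Or.inl hw₂
  have d1 : (F ∩ T).ncard ≤ 2 := b2 hp h hS hT F hF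
  -- no third element of `T` in `F`
  have hthird : ∀ x, x ∈ T → x ≠ t → x ≠ t' → x ∉ F := by
    intro x hx hxt hxt' hxF
    have hs : ({x, t, t'} : Set V) ⊆ F ∩ T := by
      intro y hy
      rcases hy with rfl | rfl | hy
      · exact ⟨hxF, hx⟩
      · exact ⟨htF, ht⟩
      · rw [Set.mem_singleton_iff.mp hy]; exact ⟨ht'F, ht'⟩
    have hc := Set.ncard_le_ncard hs (Set.toFinite _)
    have h3 : ({x, t, t'} : Set V).ncard = 3 :=
      Set.ncard_eq_three.mpr ⟨x, t, t', hxt, hxt', htt, rfl⟩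
    omega
  have hwT : ∀ w ∈ F ∩ S, w ∉ T := by
    intro w hw hwT
    exact hthird w hwT (fun hh => htS (hh ▸ hw.2)) (fun hh => ht'S (hh ▸ hw.2)) hw.1
  have hadjw : G.Adj w₁ w₂ :=
    b3 hp h.symm hT hS F hF w₁ w₂ hw₁.2 hw₂.2 hww hw₁.1 hw₂.1
  have hF2 : ∃ F'' : Set V, IsFace G U F'' ∧ F ≠ F'' ∧ w₁ ∈ F'' ∧ w₂ ∈ F'' := by
    obtain ⟨E, E', hE, hE', hEE, a1, a2, a3, a4⟩ := hp.e1 w₁ w₂ (h.sU hw₁.2) (h.sU hw₂.2) hadjw
    by_cases hFE : F = E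
    · exact ⟨E', hE', fun hh => hEE (hFE ▸ hh), a3, a4⟩
    · exact ⟨E, hE, hFE, a1, a2⟩
  obtain ⟨F'', hF'', hne, hwF₁, hwF₂⟩ := hF2
  have hsub : T \ {t, t'} ⊆ F'' ∩ T := by
    intro x hx
    have hxt : x ≠ t := fun hh => hx.2 (Or.inl hh)
    have hxt' : x ≠ t' := fun hh => hx.2 (Or.inr hh)
    have hxF : x ∉ F := hthird x hx.1 hxt hxt'
    refine ⟨?_, hx.1⟩
    by_contra hxF''
    exact hp.b3 F F'' w₁ w₂ x hF hF'' hne hw₁.1 hw₂.1 hwF₁ hwF₂ hww hadjw (h.tU hx.1) hxF hxF''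
      (hg₁.2 x hx.1 (fun hh => hwT w₁ hw₁ (hh ▸ hx.1)))
      (hg₂.2 x hx.1 (fun hh => hwT w₂ hw₂ (hh ▸ hx.1)))
  have e1 := Set.ncard_le_ncard hsub (Set.toFinite _)
  have e2 := b2 hp h hS hT F'' hF''
  have e3 := Set.le_ncard_sdiff ({t, t'} : Set V) T
  have e4 : ({t, t'} : Set V).ncard ≤ 2 := pair_le t t'
  omega

theorem hSTC : StKCA → StFPA → StFPB → StFPC → StEDF → StSTC := by
  intro hKCA hFPA hFPB hFPC hEDF V _ G U S T h4 hP hSU hTU hSF hTF hst hts hcase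
  have hp : Fp G U := fp_of hKCA hFPA hFPB hFPC hEDF h4 hP
  have h : Sit G U S T := ⟨hSU, hTU, hSF, hTF, hst, hts⟩
  rcases hcase with ⟨h1, h2⟩ | ⟨h1, h2, hd, hi | hi⟩
  · exact caseB hp h h1 h2
  · exact caseA hp h.symm h2 h1 hd.symm hi
  · exact caseA hp h h1 h2 hd hi

end Pool.Agent.Helper9.NK
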